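import Pool.Agent.MP_e6539c_co.PB.Spec

/-! Small facts on cuts used by several steps. -/

set_option autoImplicit false
set_option linter.unusedSectionVars false

namespace Pool.Agent.MP_e6539c_co.PB

open Finset Classical Pool.Agent.MP_e6539c_co.h19

variable {V E : Type} [Fintype V] [Fintype E] {G : E → Sym2 V}

lemma cut_symmDiff (G : E → Sym2 V) (S T : Set V) :
    cut G (symmDiff S T) = symmDiff (cut G S) (cut G T) := by
  ext e
  obtain ⟨x, y, h⟩ := exists_ends G e
  simp only [Finset.mem_symmDiff, mem_cut_of h, Set.mem_symmDiff]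
  tauto

lemma cut_univ (G : E → Sym2 V) : cut G Set.univ = ∅ := by
  rw [← Set.compl_empty, cut_compl, cut_empty]

lemma sub_inter_union (G : E → Sym2 V) (S T : Set V) :
    (cut G (S ∩ T)).card + (cut G (S ∪ T)).card ≤ (cut G S).card + (cut G T).card := by
  have key : ∀ A : Set V, (cut G A).card = ∑ e, if e ∈ cut G A then 1 else 0 := fun A => by
    simp
  simp only [key, ← Finset.sum_add_distrib]
  refine Finset.sum_le_sum (fun e _ => ?_)
  obtain ⟨x, y, h⟩ := exists_ends G e
  simp only [mem_cut_of h, Set.mem_inter_iff, Set.mem_union]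
  by_cases h1 : x ∈ S <;> by_cases h2 : y ∈ S <;> by_cases h3 : x ∈ T <;> by_cases h4 : y ∈ T <;>
    simp [h1, h2, h3, h4]

lemma sub_diff_diff (G : E → Sym2 V) (S T : Set V) :
    (cut G (S \ T)).card + (cut G (T \ S)).card ≤ (cut G S).card + (cut G T).card := by
  have h := sub_inter_union G S Tᶜ
  have e1 : S ∪ Tᶜ = (T \ S)ᶜ := by
    ext x
    simp only [Set.mem_union, Set.mem_compl_iff, Set.mem_sdiff]
    tauto
  rw [e1, cut_compl, cut_compl] at h
  exact h

lemma Ge.bl (h : Ge G 2) : Bl G := fun S t => by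
  rcases h S with h1 | h1
  · rw [h1] at t; simp at t
  · omega

lemma Ge.of_bl (h : Bl G) : Ge G 2 := fun S => by
  have := h S
  rcases Nat.eq_zero_or_pos (cut G S).card with t | t
  · exact Or.inl (Finset.card_eq_zero.1 t)
  · exact Or.inr (by omega)

lemma Ge.mono {k m : ℕ} (h : Ge G k) (hm : m ≤ k) : Ge G m :=
  fun S => (h S).imp id (fun t => hm.trans t)

/-- In a connected graph a side avoiding the root is determined by its cut. -/
lemma Con.side_eq (h : Con G) {r : V} {S T : Set V} (hS : r ∉ S) (hT : r ∉ T)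
    (e : cut G S = cut G T) : S = T := by
  rcases h (symmDiff S T) (by rw [cut_symmDiff, e]; simp) with t | t
  · exact symmDiff_eq_bot.1 t
  · have : r ∈ symmDiff S T := by rw [t]; trivial
    simp [Set.mem_symmDiff, hS, hT] at this

lemma Con.cut_ne (h : Con G) {r x : V} {S : Set V} (hr : r ∉ S) (hx : x ∈ S) : cut G S ≠ ∅ :=
  fun t => by
    rcases h S t with s | s
    · rw [s] at hx; exact hx
    · rw [s] at hr; exact hr trivial

/-- Every cut has a side avoiding the root. -/
lemma exists_side (G : E → Sym2 V) (r : V) (S : Set V) :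
    ∃ T : Set V, r ∉ T ∧ cut G T = cut G S := by
  by_cases h : r ∈ S
  · exact ⟨Sᶜ, fun t => t h, cut_compl G S⟩
  · exact ⟨S, h, rfl⟩

lemma Ser.refl (G : E → Sym2 V) (a : E) : Ser G a a := Or.inl rfl

lemma Ser.symm {a b : E} (h : Ser G a b) : Ser G b a := by
  rcases h with h | ⟨S, h⟩
  · exact Or.inl h.symm
  · exact Or.inr ⟨S, h.trans (Finset.pair_comm a b)⟩

lemma ser_iff {a b : E} :
    Ser G a b ↔ ∃ S : Set V, cut G S = symmDiff {a} {b} := by
  by_cases hab : a = b
  · subst hab
    exact ⟨fun _ => ⟨∅, by simp [cut_empty]⟩, fun _ => Or.inl rfl⟩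
  · have e : symmDiff ({a} : Finset E) {b} = {a, b} := by
      ext x
      simp only [Finset.mem_symmDiff, Finset.mem_singleton, Finset.mem_insert]
      grind
    rw [e]
    exact ⟨fun h => h.resolve_left hab, fun h => Or.inr h⟩

lemma Ser.trans {a b c : E} (h1 : Ser G a b) (h2 : Ser G b c) : Ser G a c := by
  obtain ⟨S, hS⟩ := ser_iff.1 h1
  obtain ⟨T, hT⟩ := ser_iff.1 h2
  refine ser_iff.2 ⟨symmDiff S T, ?_⟩
  rw [cut_symmDiff, hS, hT, symmDiff_assoc, symmDiff_symmDiff_cancel_left]

lemma Cyc.ser {g : E → ZMod 2} (hg : Cyc G g) {a b : E} (h : Ser G a b) :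
    g a = g b := by
  by_cases hab : a = b
  · rw [hab]
  · obtain ⟨S, hS⟩ := h.resolve_left hab
    have := hg S
    rw [hS, Finset.sum_pair hab] at this
    have k : ∀ x y : ZMod 2, x + y = 0 → x = y := by decide
    exact k _ _ this

lemma Cyc.add {g h : E → ZMod 2} (hg : Cyc G g) (hh : Cyc G h) : Cyc G (g + h) := fun S => by
  simp only [Pi.add_apply, Finset.sum_add_distrib, hg S, hh S, add_zero]

lemma cyc_zero (G : E → Sym2 V) : Cyc G 0 := fun S => by simp

/-- A cycle of the graph with `X` deleted, set to zero on `X`, is a cycle of the graph. -/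
lemma Cyc.of_del {G' : E → Sym2 V} {X : Finset E} (hd : ∀ S : Set V, cut G' S = cut G S \ X)
    {g : E → ZMod 2} (hg : Cyc G' g) : Cyc G (fun e => if e ∈ X then 0 else g e) := fun S => by
  have := hg S
  rw [hd S, Finset.sdiff_eq_filter, Finset.sum_filter] at this
  refine Eq.trans (Finset.sum_congr rfl (fun e _ => ?_)) this
  by_cases t : e ∈ X <;> simp [t]

lemma cyc_iff_bd {g : E → ZMod 2} : Cyc G g ↔ bd G g = 0 :=
  ⟨fun h => funext (fun v => h {v}), fun h S => sum_cut_zero Z2 (fun v _ => by rw [h]; rfl)⟩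

end Pool.Agent.MP_e6539c_co.PB
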