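import Pool.Agent.MP_e6539c_co.PB.Base

/-! Sides of cuts of size two as top parts of two laminar families. -/

set_option autoImplicit false
set_option linter.unusedSectionVars false

namespace Pool.Agent.MP_e6539c_co.PB

open Finset Classical Pool.Agent.MP_e6539c_co.h19

variable {V E : Type} [Fintype V] [Fintype E] {G : E → Sym2 V}

/-- In every series class there are two base edges whose side is largest. -/
lemma exists_base (G : E → Sym2 V) (r : V) (C : Set E) (s : E) (hC : C = {t | Ser G s t}) :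
    ∃ x : E × E × Set V, x.1 ∈ C ∧ x.2.1 ∈ C ∧ r ∉ x.2.2 ∧
      cut G x.2.2 = symmDiff {x.1} {x.2.1} ∧ ∀ (a b : E) (S : Set V), a ∈ C → b ∈ C → r ∉ S →
        cut G S = symmDiff {a} {b} → x.2.2 ⊆ S → S ⊆ x.2.2 := by
  obtain ⟨x, hx, hm⟩ := Set.exists_max_image
    {x : E × E × Set V | x.1 ∈ C ∧ x.2.1 ∈ C ∧ r ∉ x.2.2 ∧ cut G x.2.2 = symmDiff {x.1} {x.2.1}}
    (fun x => x.2.2.ncard) (Set.toFinite _)
    ⟨(s, s, ∅), by simp [hC, Ser.refl, cut_empty]⟩
  refine ⟨x, hx.1, hx.2.1, hx.2.2.1, hx.2.2.2, fun a b S ha hb hr hS h => ?_⟩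
  exact (Set.eq_of_subset_of_ncard_le h (hm (a, b, S) ⟨ha, hb, hr, hS⟩) (Set.toFinite _)).ge

lemma nested_of_end (hc : Con G) (hg : Ge G 2) {r x : V} {a s t : E} {S T : Set V} (hS : r ∉ S)
    (hT : r ∉ T) (c1 : cut G S = symmDiff {a} {s}) (c2 : cut G T = symmDiff {a} {t})
    (hs : a ≠ s) (ht : a ≠ t) (hx : x ∈ G a) (x1 : x ∈ S) (x2 : x ∈ T) : S ⊆ T ∨ T ⊆ S := by
  by_contra n
  simp only [not_or, Set.not_subset] at n
  obtain ⟨⟨y, y1, y2⟩, z, z1, z2⟩ := n
  have g1 := (hg (S \ T)).resolve_left (hc.cut_ne (r := r) (x := y) (fun t => hS t.1) ⟨y1, y2⟩)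
  have g2 := (hg (T \ S)).resolve_left (hc.cut_ne (r := r) (x := z) (fun t => hT t.1) ⟨z1, z2⟩)
  have a1 : a ∈ cut G S := by rw [c1]; simp [Finset.mem_symmDiff, hs]
  have a2 : a ∈ cut G T := by rw [c2]; simp [Finset.mem_symmDiff, ht]
  have sub : ∀ S T : Set V, ∀ s t : E, cut G S = symmDiff {a} {s} → cut G T = symmDiff {a} {t} →
      a ∈ cut G S → a ∈ cut G T → x ∈ S → x ∈ T → cut G (S \ T) ⊆ {s, t} := by
    intro S T s t c1 c2 a1 a2 x1 x2 e he
    have n : e ≠ a := by
      rintro rfl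
      obtain ⟨w, h⟩ := Sym2.mem_iff_exists.1 hx
      rw [mem_cut_of h] at he a1 a2
      simp only [Set.mem_sdiff] at he
      tauto
    have : e ∈ cut G S ∨ e ∈ cut G T := by
      obtain ⟨u, w, h⟩ := exists_ends G e
      rw [mem_cut_of h] at he
      rw [mem_cut_of h, mem_cut_of h]
      simp only [Set.mem_sdiff] at he
      tauto
    rw [c1, c2] at this
    simp only [Finset.mem_symmDiff, Finset.mem_singleton, Finset.mem_insert] at this ⊢
    tauto
  have e1 : cut G (S \ T) = {s, t} := Finset.eq_of_subset_of_card_le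
    (sub S T s t c1 c2 a1 a2 x1 x2) (Finset.card_le_two.trans g1)
  have e2 : cut G (T \ S) = {s, t} := (Finset.eq_of_subset_of_card_le
    (sub T S t s c2 c1 a2 a1 x2 x1) (Finset.card_le_two.trans g2)).trans (Finset.pair_comm _ _)
  have := hc.side_eq (r := r) (fun t => hS t.1) (fun t => hT t.1) (e1.trans e2.symm)
  have k : y ∈ T \ S := this ▸ (show y ∈ S \ T from ⟨y1, y2⟩)
  exact y2 k.1

theorem chain (hh : Half) : Chain := by
  intro V E _ _ G r hc hg
  have ex : ∀ C : Set E, ∃ x : E → E × E × Set V, (∀ s t, x s = x t) ∧ ∀ s, C = {t | Ser G s t} →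
      (x s).1 ∈ C ∧ (x s).2.1 ∈ C ∧ r ∉ (x s).2.2 ∧
      cut G (x s).2.2 = symmDiff {(x s).1} {(x s).2.1} ∧ ∀ (a b : E) (S : Set V), a ∈ C → b ∈ C →
        r ∉ S → cut G S = symmDiff {a} {b} → (x s).2.2 ⊆ S → S ⊆ (x s).2.2 := fun C => by
    by_cases h : ∃ s, C = {t | Ser G s t}
    · obtain ⟨s, hs⟩ := h
      obtain ⟨x, hx⟩ := exists_base G r C s hs
      exact ⟨fun _ => x, fun _ _ => rfl, fun _ _ => hx⟩
    · by_cases hE : Nonempty E
      · obtain ⟨e⟩ := hE
        exact ⟨fun _ => (e, e, ∅), fun _ _ => rfl, fun s hs => absurd ⟨s, hs⟩ h⟩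
      · exact ⟨fun e => (e, e, ∅), fun s => absurd ⟨s⟩ hE, fun s => absurd ⟨s⟩ hE⟩
  choose x0 x1 x2 using ex
  let x : E → E × E × Set V := fun s => x0 {t | Ser G s t} s
  have xc : ∀ s t, Ser G s t → x s = x t := fun s t h => by
    have : {u | Ser G s u} = {u | Ser G t u} := by
      ext u
      exact ⟨fun k => h.symm.trans k, fun k => h.trans k⟩
    simp only [x, this]
    exact x1 _ _ _
  let a : E → E := fun s => (x s).1
  let b : E → E := fun s => (x s).2.1
  let M : E → Set V := fun s => (x s).2.2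
  have ha : ∀ s, Ser G s (a s) := fun s => (x2 _ s rfl).1
  have hb : ∀ s, Ser G s (b s) := fun s => (x2 _ s rfl).2.1
  have hM : ∀ s, r ∉ M s := fun s => (x2 _ s rfl).2.2.1
  have cM : ∀ s, cut G (M s) = symmDiff {a s} {b s} := fun s => (x2 _ s rfl).2.2.2.1
  have mM : ∀ s (u v : E) (S : Set V), Ser G s u → Ser G s v → r ∉ S →
      cut G S = symmDiff {u} {v} → M s ⊆ S → S ⊆ M s := fun s => (x2 _ s rfl).2.2.2.2
  have ac : ∀ s t, Ser G s t → a s = a t := fun s t h => by simp only [a, xc s t h]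
  have bc : ∀ s t, Ser G s t → b s = b t := fun s t h => by simp only [b, xc s t h]
  have Mc : ∀ s t, Ser G s t → M s = M t := fun s t h => by simp only [M, xc s t h]
  have exA : ∀ s, ∃ S : Set V, r ∉ S ∧ cut G S = symmDiff {a s} {s} := fun s => by
    obtain ⟨S, hS⟩ := ser_iff.1 (ha s).symm
    obtain ⟨T, h1, h2⟩ := exists_side G r S
    exact ⟨T, h1, h2.trans hS⟩
  choose A hA cA using exA
  have emp : ∀ S : Set V, r ∉ S → cut G S = ∅ → S = ∅ := fun S h1 h2 =>
    (hc S h2).resolve_right (fun t => h1 (by rw [t]; trivial))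
  have sub : ∀ s, A s ⊆ M s := fun s => by
    by_cases h1 : a s = s
    · rw [emp _ (hA s) (by rw [cA, h1]; simp)]
      exact Set.empty_subset _
    by_cases h2 : a s = b s
    · refine mM s _ _ _ (ha s) (Ser.refl G s) (hA s) (cA s) ?_
      rw [emp _ (hM s) (by rw [cM, h2]; simp)]
      exact Set.empty_subset _
    obtain ⟨y, z, h⟩ := exists_ends G (a s)
    have a1 : a s ∈ cut G (A s) := by rw [cA]; simp [Finset.mem_symmDiff, h1]
    have a2 : a s ∈ cut G (M s) := by rw [cM]; simp [Finset.mem_symmDiff, h2]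
    rw [mem_cut_of h] at a1 a2
    have same : ∀ w, w ∈ G (a s) → w ∈ A s → w ∈ M s → A s ⊆ M s := fun w k1 k2 k3 => by
      rcases nested_of_end hc hg (hA s) (hM s) (cA s) (cM s) h1 h2 k1 k2 k3 with t | t
      · exact t
      · exact mM s _ _ _ (ha s) (Ser.refl G s) (hA s) (cA s) t
    by_cases k : (y ∈ A s ∧ y ∈ M s) ∨ (z ∈ A s ∧ z ∈ M s)
    · rcases k with k | k
      · exact same y (by rw [h]; simp) k.1 k.2
      · exact same z (by rw [h]; simp) k.1 k.2
    -- the two sides hold different ends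
    have hr : r ∉ A s ∪ M s := fun t => t.elim (hA s) (hM s)
    have c1 : cut G (A s ∪ M s) ⊆ {s, b s} := fun e he => by
      have n : e ≠ a s := by
        rintro rfl
        rw [mem_cut_of h] at he
        simp only [Set.mem_union] at he
        tauto
      have : e ∈ cut G (A s) ∨ e ∈ cut G (M s) := by
        obtain ⟨u, w, h'⟩ := exists_ends G e
        rw [mem_cut_of h'] at he
        rw [mem_cut_of h', mem_cut_of h']
        simp only [Set.mem_union] at he
        tauto
      rw [cA, cM] at this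
      simp only [Finset.mem_symmDiff, Finset.mem_singleton, Finset.mem_insert] at this ⊢
      tauto
    have y1 : y ∈ A s ∪ M s := by
      simp only [Set.mem_union]
      tauto
    have g1 := (hg _).resolve_left (hc.cut_ne hr y1)
    have c2 := Finset.eq_of_subset_of_card_le c1 (Finset.card_le_two.trans g1)
    have n : s ≠ b s := fun t => by
      rw [c2, ← t] at g1
      simp at g1
    have c3 : cut G (A s ∪ M s) = symmDiff {s} {b s} := by
      rw [c2]
      ext e
      simp only [Finset.mem_symmDiff, Finset.mem_singleton, Finset.mem_insert]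
      grind
    exact Set.subset_union_left.trans
      (mM s _ _ _ (Ser.refl G s) (hb s) hr c3 Set.subset_union_right)
  have chA : ∀ s t, Ser G s t → A s ⊆ A t ∨ A t ⊆ A s := fun s t st => by
    by_cases h1 : a s = s
    · rw [emp _ (hA s) (by rw [cA, h1]; simp)]
      exact Or.inl (Set.empty_subset _)
    by_cases h2 : a t = t
    · rw [emp _ (hA t) (by rw [cA, h2]; simp)]
      exact Or.inr (Set.empty_subset _)
    have a1 : a s ∈ cut G (A s) := by rw [cA]; simp [Finset.mem_symmDiff, h1]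
    have a2 : a s ∈ cut G (A t) := by rw [cA, ac s t st]; simp [Finset.mem_symmDiff, h2]
    have n : a s ≠ b s := fun k => by
      have := sub s
      rw [emp _ (hM s) (by rw [cM, k]; simp), Set.subset_empty_iff] at this
      rw [this, cut_empty] at a1
      simp at a1
    have a3 : a s ∈ cut G (M s) := by rw [cM]; simp [Finset.mem_symmDiff, n]
    obtain ⟨y, z, h, y1, -⟩ := mem_cut.1 a1
    have s1 := sub s y1
    have s2 := @sub t z
    rw [← Mc s t st] at s2
    rw [mem_cut_of h] at a2 a3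
    exact nested_of_end hc hg (x := y) (hA s) (hA t) (cA s) (by rw [cA, ac s t st]) h1
      (by rw [ac s t st]; exact h2) (by rw [h]; simp) y1 (by tauto)
  let B : E → Set V := fun s => M s \ A s
  have hB : ∀ s, r ∉ B s := fun s t => hM s t.1
  have cB : ∀ s, cut G (B s) = symmDiff {b s} {s} := fun s => by
    have : B s = symmDiff (M s) (A s) := (symmDiff_of_ge (sub s)).symm
    rw [this, cut_symmDiff, cM, cA, symmDiff_comm {a s} {b s}, symmDiff_assoc,
      symmDiff_symmDiff_cancel_left]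
  have chB : ∀ s t, Ser G s t → B s ⊆ B t ∨ B t ⊆ B s := fun s t st => by
    simp only [B, Mc s t st]
    exact (chA s t st).symm.imp Set.sdiff_subset_sdiff_right Set.sdiff_subset_sdiff_right
  obtain ⟨l1, p, hp⟩ := hh V E G r A a hc hg hA ha ac cA chA
  obtain ⟨l2, q, hq⟩ := hh V E G r B b hc hg hB hb bc cB chB
  refine ⟨_, _, p, q, l1, l2, fun S hS h2 => ?_⟩
  have main : ∀ s t, s ≠ t → cut G S = {s, t} → A s ⊆ A t → ∃ A' ∈ Set.range A,
      ∃ B' ∈ Set.range B, S = A' ∩ B' ∧ (∀ x ∈ A', x ∉ S → ∀ y ∈ S, p x < p y) ∧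
        (∀ x ∈ B', x ∉ S → ∀ y ∈ S, q x < q y) := fun s t n h k => by
    have st : Ser G s t := Or.inr ⟨S, h⟩
    have e1 : S = A t \ A s := by
      refine hc.side_eq hS (fun t => hA _ t.1) ?_
      rw [← symmDiff_of_ge k, cut_symmDiff, cA, cA, ac s t st, h]
      ext e
      simp only [Finset.mem_symmDiff, Finset.mem_singleton, Finset.mem_insert]
      grind
    have k2 := sub t
    rw [← Mc s t st] at k2
    refine ⟨_, ⟨t, rfl⟩, _, ⟨s, rfl⟩, ?_, fun u u1 u2 y hy => ?_, fun u u1 u2 y hy => ?_⟩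
    · rw [e1]
      ext w
      have := @k2 w
      simp only [B, Set.mem_sdiff, Set.mem_inter_iff]
      tauto
    · rw [e1] at u2 hy
      exact hp s t st u (by by_contra n; exact u2 ⟨u1, n⟩) y hy.1 hy.2
    · rw [e1] at u2 hy
      refine hq t s st.symm u ⟨Mc s t st ▸ u1.1, fun n => u2 ⟨n, u1.2⟩⟩ y ⟨k2 hy.1, hy.2⟩
        (fun n => n.2 hy.1)
  obtain ⟨s, t, n, h⟩ := Finset.card_eq_two.1 h2
  rcases chA s t (Or.inr ⟨S, h⟩) with k | k
  · exact main s t n h k
  · exact main t s n.symm (h.trans (Finset.pair_comm _ _)) k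

end Pool.Agent.MP_e6539c_co.PB
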