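import Pool.Agent.MP_e6539c_co.PB.Base

/-! Chains of sides of series classes: laminarity and a rank. -/

set_option autoImplicit false
set_option linter.unusedSectionVars false

namespace Pool.Agent.MP_e6539c_co.PB

open Finset Classical Pool.Agent.MP_e6539c_co.h19

variable {V E : Type} [Fintype V] [Fintype E] {G : E → Sym2 V}

lemma card_symmDiff_single (a b : E) : (symmDiff ({a} : Finset E) {b}).card ≤ 2 := by
  refine (Finset.card_le_card (t := {a, b}) (fun x hx => ?_)).trans Finset.card_le_two
  simp only [Finset.mem_symmDiff, Finset.mem_singleton, Finset.mem_insert] at hx ⊢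
  tauto

lemma cut_inter_subset (G : E → Sym2 V) (S T : Set V) : cut G (S ∩ T) ⊆ cut G S ∪ cut G T := by
  intro e
  obtain ⟨x, y, h⟩ := exists_ends G e
  simp only [mem_cut_of h, Finset.mem_union, Set.mem_inter_iff]
  tauto

theorem half : Half := by
  intro V E _ _ G r A b hc hg hr hb hbb hA hch
  have mem : ∀ s e, e ∈ cut G (A s) → Ser G e s := fun s e he => by
    rw [hA, Finset.mem_symmDiff] at he
    simp only [Finset.mem_singleton] at he
    rcases he with ⟨h, -⟩ | ⟨h, -⟩
    · rw [h]; exact (hb s).symm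
    · exact Or.inl h
  have lam : ∀ s u, A s ⊆ A u ∨ A u ⊆ A s ∨ Disjoint (A s) (A u) := fun s u => by
    by_cases hsu : Ser G s u
    · rcases hch s u hsu with h | h
      · exact Or.inl h
      · exact Or.inr (Or.inl h)
    by_contra t
    simp only [not_or, Set.not_subset, Set.not_disjoint_iff] at t
    obtain ⟨⟨x, x1, x2⟩, ⟨y, y1, y2⟩, z, z1, z2⟩ := t
    have g1 := (hg (A s ∩ A u)).resolve_left
      (hc.cut_ne (r := r) (x := z) (fun t => hr s t.1) ⟨z1, z2⟩)
    have g2 := (hg (A s ∪ A u)).resolve_left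
      (hc.cut_ne (r := r) (x := z) (fun t => t.elim (hr s) (hr u)) (Or.inl z1))
    have g3 := hc.cut_ne (r := r) (x := x) (S := A s \ A u) (fun t => hr s t.1) ⟨x1, x2⟩
    have g4 := hc.cut_ne (r := r) (x := y) (S := A u \ A s) (fun t => hr u t.1) ⟨y1, y2⟩
    have c1 : (cut G (A s)).card ≤ 2 := by rw [hA]; exact card_symmDiff_single _ _
    have c2 : (cut G (A u)).card ≤ 2 := by rw [hA]; exact card_symmDiff_single _ _
    have s1 := sub_inter_union G (A s) (A u)
    have c3 : (cut G (A s ∩ A u)).card = 2 := by omega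
    obtain ⟨e, f, hef, h⟩ := Finset.card_eq_two.1 c3
    have ser : Ser G e f := Or.inr ⟨_, h⟩
    have he := cut_inter_subset G (A s) (A u) (show e ∈ _ by rw [h]; simp)
    have hf := cut_inter_subset G (A s) (A u) (show f ∈ _ by rw [h]; simp)
    have key : ∀ s' S', (∀ a ∈ cut G (A s ∩ A u), a ∈ cut G (A s')) →
        S' = symmDiff (A s') (A s ∩ A u) → cut G S' = ∅ := fun s' S' h1 h2 => by
      have c4 : (cut G (A s')).card ≤ 2 := by rw [hA]; exact card_symmDiff_single _ _
      rw [h2, cut_symmDiff, Finset.eq_of_subset_of_card_le h1 (by omega)]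
      simp
    rcases Finset.mem_union.1 he with e1 | e1 <;> rcases Finset.mem_union.1 hf with f1 | f1
    · refine g3 (key s _ (fun a ha => ?_) ?_)
      · rw [h] at ha
        rcases Finset.mem_insert.1 ha with t | t
        · rw [t]; exact e1
        · rw [Finset.mem_singleton.1 t]; exact f1
      · ext w
        simp only [Set.mem_sdiff, Set.mem_symmDiff, Set.mem_inter_iff]
        tauto
    · exact hsu ((mem s e e1).symm.trans (ser.trans (mem u f f1)))
    · exact hsu ((mem s f f1).symm.trans (ser.symm.trans (mem u e e1)))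
    · refine g4 (key u _ (fun a ha => ?_) ?_)
      · rw [h] at ha
        rcases Finset.mem_insert.1 ha with t | t
        · rw [t]; exact e1
        · rw [Finset.mem_singleton.1 t]; exact f1
      · ext w
        simp only [Set.mem_sdiff, Set.mem_symmDiff, Set.mem_inter_iff]
        tauto
  have bm : ∀ s x, x ∈ A s → b s ∈ cut G (A s) := fun s x hx => by
    have := hc.cut_ne (hr s) hx
    rw [hA] at this ⊢
    have n : b s ≠ s := fun t => this (by rw [t]; simp)
    simp [Finset.mem_symmDiff, n]
  have sand : ∀ s t u x, Ser G s t → x ∈ A s → A s ⊆ A u → A u ⊆ A t → Ser G u s := by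
    intro s t u x hst hx h1 h2
    have b1 := bm s x hx
    have b2 := bm t x (h2 (h1 hx))
    rw [← hbb s t hst] at b2
    have b3 : b s ∈ cut G (A u) := by
      obtain ⟨y, z, h⟩ := exists_ends G (b s)
      rw [mem_cut_of h] at b1 b2 ⊢
      have := @h1 y
      have := @h1 z
      have := @h2 y
      have := @h2 z
      tauto
    exact (mem u _ b3).symm.trans (hb s).symm
  have nest : ∀ s u x, x ∈ A s → x ∈ A u → A s ⊆ A u ∨ A u ⊆ A s := fun s u x h1 h2 => by
    rcases lam s u with h | h | h
    · exact Or.inl h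
    · exact Or.inr h
    · exact absurd h2 (Set.disjoint_left.1 h h1)
  refine ⟨?_, ?_⟩
  · rintro _ ⟨s, rfl⟩ _ ⟨u, rfl⟩
    exact lam s u
  let R : V → V → Prop := fun x y => ∃ s t, Ser G s t ∧ x ∈ A s ∧ y ∈ A t ∧ y ∉ A s
  have tr : ∀ x y z, R x y → R y z → R x z := by
    rintro x y z ⟨s, t, st, xs, yt, ys⟩ ⟨u, v, uv, yu, zv, zu⟩
    have h1 : A s ⊆ A t := (hch s t st).resolve_right (fun h => ys (h yt))
    have h2 : A u ⊆ A v := (hch u v uv).resolve_right (fun h => zu (h zv))
    have up : Ser G s u → A s ⊆ A u := fun h => (hch s u h).resolve_right (fun h => ys (h yu))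
    rcases nest t u y yt yu with h3 | h3
    · exact ⟨u, v, uv, h3 (h1 xs), zv, zu⟩
    rcases nest v t y (h2 yu) yt with h4 | h4
    · by_cases zs : z ∈ A s
      · have h5 : A s ⊆ A v := (nest s v z zs zv).resolve_right (fun h => ys (h (h2 yu)))
        have := sand s t v z st zs h5 h4
        exact absurd (up (this.symm.trans uv.symm) zs) zu
      · exact ⟨s, t, st, xs, h4 zv, zs⟩
    · have := sand u v t y uv yu h3 h4
      exact ⟨u, v, uv, up (st.trans this) xs, zv, zu⟩
  refine ⟨fun y => (univ.filter (fun x => R x y)).card, fun s t st x xs y yt ys => ?_⟩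
  have hxy : R x y := ⟨s, t, st, xs, yt, ys⟩
  refine Finset.card_lt_card ⟨fun z hz => ?_, fun h => ?_⟩
  · simp only [Finset.mem_filter, Finset.mem_univ, true_and] at hz ⊢
    exact tr z x y hz hxy
  · have := h (show x ∈ _ by simpa using hxy)
    simp only [Finset.mem_filter, Finset.mem_univ, true_and] at this
    obtain ⟨s', -, -, h1, -, h2⟩ := this
    exact h2 h1

end Pool.Agent.MP_e6539c_co.PB
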