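import Mathlib
import Pool.Agent.MP_e6539c_co.h19.Poles

/-! Bounded families of cycles: definitions and the statements of the steps. -/

set_option autoImplicit false

namespace Pool.Agent.MP_e6539c_co.PB

open Finset Classical Pool.Agent.MP_e6539c_co.h19

section defs

variable {V E : Type} [Fintype V] [Fintype E]

/-- `g` is the indicator of a cycle: its sum over every cut is zero. -/
def Cyc (G : E → Sym2 V) (g : E → ZMod 2) : Prop :=
  ∀ S : Set V, ∑ e ∈ cut G S, g e = 0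

/-- Every nonempty cut has at least `k` edges. -/
def Ge (G : E → Sym2 V) (k : ℕ) : Prop :=
  ∀ S : Set V, cut G S = ∅ ∨ k ≤ (cut G S).card

/-- Only the trivial vertex sets have an empty cut. -/
def Con (G : E → Sym2 V) : Prop :=
  ∀ S : Set V, cut G S = ∅ → S = ∅ ∨ S = Set.univ

/-- No nonempty cut lies inside `Z`. -/
def Coi (G : E → Sym2 V) (Z : Finset E) : Prop :=
  ∀ S : Set V, cut G S ⊆ Z → cut G S = ∅

/-- Equal, or in series. -/
def Ser (G : E → Sym2 V) (a b : E) : Prop := a = b ∨ ∃ S : Set V, cut G S = {a, b}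

/-- Two edges in a common cut of size three. -/
def Adj3 (G : E → Sym2 V) (a b : E) : Prop :=
  ∃ S : Set V, (cut G S).card = 3 ∧ a ∈ cut G S ∧ b ∈ cut G S

/-- The edges of `cut G A` in `X` with an end in `D`. -/
noncomputable def lv (G : E → Sym2 V) (X : Finset E) (A D : Set V) : Finset E :=
  (cut G A ∩ X).filter (fun e => ∃ y ∈ D, y ∈ G e)

/-- A family of cycles whose value vectors lie in `T`. -/
def Flow (G : E → Sym2 V) {N : ℕ} (T : Set (Fin N → ZMod 2)) : Prop :=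
  ∃ g : Fin N → E → ZMod 2, (∀ i, Cyc G (g i)) ∧ ∀ e, (fun i => g i e) ∈ T

/-- An edge map sending every vertex star of `F` onto a cut of size three of `G`. -/
def StarMap {W D : Type} [Fintype W] [Fintype D] (F : D → Sym2 W) (G : E → Sym2 V) : Prop :=
  ∃ f : D → E, ∀ w : W, ∃ S : Set V, (cut G S).card = 3 ∧ cut G S = (cut F {w}).image f

end defs

/-- Any two members are nested or disjoint. -/
def Lam {V : Type} (L : Set (Set V)) : Prop :=
  ∀ A ∈ L, ∀ B ∈ L, A ⊆ B ∨ B ⊆ A ∨ Disjoint A B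

/-- Elements reached from `x` by a walk of at most `r` steps on which they are smallest. -/
def WR {E : Type} (R : E → E → Prop) (o : E → ℕ) (r : ℕ) (x : E) : Set E :=
  {m | ∃ k ≤ r, ∃ w : ℕ → E, w 0 = x ∧ w k = m ∧ (∀ i < k, R (w i) (w (i + 1))) ∧
    ∀ i ≤ k, o m ≤ o (w i)}

/-- The Petersen graph. -/
def pe : Fin 15 → Sym2 (Fin 10) :=
  ![s(0, 1), s(0, 4), s(0, 5), s(1, 2), s(1, 6), s(2, 3), s(2, 7), s(3, 4),
    s(3, 8), s(4, 9), s(5, 7), s(5, 8), s(6, 8), s(6, 9), s(7, 9)]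

/-- Extension of prescribed values to a cycle. -/
def Ext : Prop := ∀ (V E : Type) [Fintype V] [Fintype E] (G : E → Sym2 V) (W : Finset E)
  (g0 : E → ZMod 2), (∀ S : Set V, cut G S ⊆ W → ∑ e ∈ cut G S, g0 e = 0) →
  ∃ g, Cyc G g ∧ ∀ e ∈ W, g e = g0 e

/-- Contraction of the edges outside `F`, made connected. -/
def Ctr : Prop := ∀ (V E : Type) [Fintype V] [Fintype E] (G : E → Sym2 V) (F : Finset E),
  ∃ (V' : Type) (_ : Fintype V') (_ : Nonempty V') (q : V → V'), Con (gmap G q) ∧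
    (∀ S' : Set V', cut (gmap G q) S' ⊆ F) ∧
    (∀ S : Set V, cut G S ⊆ F → ∃ S' : Set V', cut (gmap G q) S' = cut G S)

/-- Deletion of `X`. -/
def Del : Prop := ∀ (V E : Type) [Fintype V] [Fintype E] (G : E → Sym2 V) (X : Finset E),
  ∃ G' : E → Sym2 V, ∀ S : Set V, cut G' S = cut G S \ X

/-- Sides of smallest cuts of odd size are laminar. -/
def OddLam : Prop := ∀ (V E : Type) [Fintype V] [Fintype E] (G : E → Sym2 V) (k : ℕ) (r : V),
  Odd k → Con G → Ge G k → Lam {A : Set V | r ∉ A ∧ (cut G A).card = k}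

/-- Two edges leaving a top part of a member of a laminar family get different colours. -/
def Lam2 : Prop := ∃ N : ℕ, ∀ (V E : Type) [Fintype V] [Fintype E] (G : E → Sym2 V)
  (X : Finset E) (L : Set (Set V)) (p : V → ℕ), Lam L → ∃ c : E → Fin N, ∀ A ∈ L, ∀ D : Set V,
    D ⊆ A → (∀ x ∈ A, x ∉ D → ∀ y ∈ D, p x < p y) → 2 ≤ (lv G X A D).card →
    ∃ e ∈ lv G X A D, ∃ f ∈ lv G X A D, c e ≠ c f

/-- Two disjoint spanning connected edge sets, in terms of cuts. -/
def TwoTree : Prop := ∀ (V E : Type) [Fintype V] [Fintype E] (G : E → Sym2 V), Ge G 4 →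
  ∃ Z : Finset E, Coi G Z ∧ Coi G Zᶜ

/-- Boundedly many sets without nonempty cuts cover the edges. -/
def Cov : Prop := ∃ N : ℕ, ∀ (V E : Type) [Fintype V] [Fintype E] (G : E → Sym2 V), Ge G 3 →
  ∃ Z : Fin N → Finset E, (∀ e, ∃ i, e ∈ Z i) ∧ ∀ i, Coi G (Z i)

/-- Boundedly many sets, each missing two edges of every nonempty cut, cover the edges. -/
def Part3 : Prop := ∃ N : ℕ, ∀ (V E : Type) [Fintype V] [Fintype E] (G : E → Sym2 V), Ge G 3 →
  ∃ X : Fin N → Finset E, (∀ e, ∃ i, e ∈ X i) ∧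
    ∀ i (S : Set V), cut G S = ∅ ∨ 2 ≤ (cut G S \ X i).card

/-- Representatives of the series classes. -/
def Reps : Prop := ∀ (V E : Type) [Fintype V] [Fintype E] (G : E → Sym2 V) (L : Finset E),
  Ge G 2 → ∃ rep : E → E, (∀ e ∈ L, rep e ∈ L) ∧ (∀ e, Ser G e (rep e)) ∧
    ∀ S : Set V, cut G S ⊆ L.image rep → cut G S = ∅ ∨ 3 ≤ (cut G S).card

/-- Boundedly many cycles cover the edges. -/
def Cover : Prop := ∃ N : ℕ, ∀ (V E : Type) [Fintype V] [Fintype E] (G : E → Sym2 V), Ge G 2 →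
  ∃ g : Fin N → E → ZMod 2, (∀ i, Cyc G (g i)) ∧ ∀ e, ∃ i, g i e = 1

/-- Boundedly many cycles separate the two label classes. -/
def Sep : Prop := ∃ N : ℕ, ∀ (V E : Type) [Fintype V] [Fintype E] (G : E → Sym2 V)
  (L : Finset E) (l : E → ZMod 2), Ge G 2 →
  (∀ a ∈ L, ∀ b ∈ L, Ser G a b → l a = l b) →
  ∃ g : Fin N → E → ZMod 2, (∀ i, Cyc G (g i)) ∧
    ∀ a ∈ L, ∀ b ∈ L, l a ≠ l b → ∃ i, g i a ≠ g i b

/-- Chains of sides, one for each series class, form a laminar family with a rank. -/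
def Half : Prop := ∀ (V E : Type) [Fintype V] [Fintype E] (G : E → Sym2 V) (r : V)
  (A : E → Set V) (b : E → E), Con G → Ge G 2 → (∀ s, r ∉ A s) → (∀ s, Ser G s (b s)) →
  (∀ s t, Ser G s t → b s = b t) → (∀ s, cut G (A s) = symmDiff {b s} {s}) →
  (∀ s t, Ser G s t → A s ⊆ A t ∨ A t ⊆ A s) →
  Lam (Set.range A) ∧ ∃ p : V → ℕ, ∀ s t, Ser G s t → ∀ x ∈ A s, ∀ y ∈ A t, y ∉ A s → p x < p y

/-- Every side of a cut of size two is a top part of members of two laminar families. -/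
def Chain : Prop := ∀ (V E : Type) [Fintype V] [Fintype E] (G : E → Sym2 V) (r : V),
  Con G → Ge G 2 → ∃ (LA LB : Set (Set V)) (p q : V → ℕ), Lam LA ∧ Lam LB ∧
    ∀ S : Set V, r ∉ S → (cut G S).card = 2 → ∃ A ∈ LA, ∃ B ∈ LB, S = A ∩ B ∧
      (∀ x ∈ A, x ∉ S → ∀ y ∈ S, p x < p y) ∧ (∀ x ∈ B, x ∉ S → ∀ y ∈ S, q x < q y)

/-- Cuts with two edges outside `X` and three in `X` see two colours in `X`. -/
def Refine : Prop := ∃ N : ℕ, ∀ (V E : Type) [Fintype V] [Fintype E] (G : E → Sym2 V)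
  (X : Finset E), (∀ S : Set V, cut G S = ∅ ∨ 2 ≤ (cut G S \ X).card) →
  ∃ c : E → Fin N, ∀ S : Set V, (cut G S \ X).card = 2 → 3 ≤ (cut G S ∩ X).card →
    ∃ e ∈ cut G S ∩ X, ∃ f ∈ cut G S ∩ X, c e ≠ c f

/-- Boundedly many cycles, one of them odd on any three edges. -/
def Odd3 : Prop := ∃ N : ℕ, ∀ (V E : Type) [Fintype V] [Fintype E] (G : E → Sym2 V), Ge G 4 →
  ∃ g : Fin N → E → ZMod 2, (∀ i, Cyc G (g i)) ∧ ∀ a b c, ∃ i, g i a + g i b + g i c = 1

/-- Bounded weak colouring numbers for the cuts of size three. -/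
def Wcol : Prop := ∀ (V E : Type) [Fintype V] [Fintype E] (G : E → Sym2 V), Ge G 3 →
  ∃ o : E → ℕ, Function.Injective o ∧ ∀ r x, (WR (Adj3 G) o r x).ncard ≤ 7 ^ r

/-- Forest structure on the elements with colours in a small set. -/
def Zhu : Prop := ∀ (p B : ℕ) (E : Type) [Fintype E] (R : E → E → Prop) (o : E → ℕ),
  (∀ a b, R a b → R b a) → Function.Injective o → (∀ x, (WR R o (2 ^ p) x).ncard ≤ B) →
  ∃ c : E → Fin (B + 1), ∀ T : Finset (Fin (B + 1)), T.card ≤ p →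
    ∃ (par : E → E) (dep : E → ℕ), (∀ x, dep x ≤ p) ∧ (∀ x, dep (par x) = dep x - 1) ∧
      ∀ x y, c x ∈ T → c y ∈ T → R x y →
        (∃ i ≤ dep x, par^[i] x = y) ∨ ∃ i ≤ dep y, par^[i] y = x

/-- Labelled forests of bounded height have endomorphisms with bounded image. -/
def Forest : Prop := ∀ (h n : ℕ), ∃ N : ℕ, ∀ (E L : Type) [Fintype E] [Fintype L]
  (par : E → E) (dep : E → ℕ) (l : E → L), Fintype.card L ≤ n →
  (∀ x, dep (par x) = dep x - 1) →
  ∃ r : E → E, (∀ x, dep x ≤ h → l (r x) = l x ∧ dep (r x) = dep x ∧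
      (0 < dep x → par (r x) = r (par x))) ∧
    ((univ.filter (fun x => dep x ≤ h)).image r).card ≤ N

/-- Maps with bounded image keeping the cuts of size three with colours in a small set. -/
def Endo : Prop := ∀ p : ℕ, ∃ M N : ℕ, ∀ (V E : Type) [Fintype V] [Fintype E] (G : E → Sym2 V),
  Ge G 3 → ∃ c : E → Fin M, ∀ T : Finset (Fin M), T.card ≤ p → ∃ r : E → E,
    (univ.image r).card ≤ N ∧ ∀ S : Set V, (cut G S).card = 3 → (∀ e ∈ cut G S, c e ∈ T) →
      ∃ S' : Set V, (cut G S').card = 3 ∧ cut G S' = (cut G S).image r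

/-- Boundedly many cycles detect the cuts of size three on every small edge set. -/
def Dual : Prop := ∀ p : ℕ, ∃ N : ℕ, ∀ (V E : Type) [Fintype V] [Fintype E] (G : E → Sym2 V),
  Ge G 2 → ∃ g : Fin N → E → ZMod 2, (∀ i, Cyc G (g i)) ∧
    ∀ Q : Finset E, Q.card ≤ p → ∃ r : E → E, ∀ a ∈ Q, ∀ b ∈ Q, ∀ c ∈ Q,
      (∀ i, g i a + g i b + g i c = 0) →
      ∃ S : Set V, (cut G S).card = 3 ∧ cut G S = {r a, r b, r c}

/-- One target for all graphs that admit no star map from `F`. -/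
def Core : Prop := ∀ (W D : Type) [Fintype W] [Fintype D] [Nonempty W] (F : D → Sym2 W),
  Con F → (∀ d, ¬ (F d).IsDiag) → (∀ w, (cut F {w}).card = 3) →
  ∃ (N : ℕ) (T : Set (Fin N → ZMod 2)), ¬ Flow F T ∧
    ∀ (V E : Type) [Fintype V] [Fintype E] (G : E → Sym2 V), Ge G 2 → ¬ StarMap F G → Flow G T

/-- Star maps from the Petersen graph are contractions onto it. -/
def NoP : Prop := ∀ (V E : Type) [Fintype V] [Fintype E] (G : E → Sym2 V), Ge G 2 →
  (StarMap pe G ↔ QP G)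

end Pool.Agent.MP_e6539c_co.PB
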